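import Mathlib
import Pool.Agent.V11145.KloostermanTwo
import Pool.Agent.V11145.TraceGraph
import Pool.Agent.V11145.RandomCore

/-!
# MP_02bc1b_co : triangles in C4-saturated graphs

For all large `n` there is a triangle-free `C_4`-saturated graph on `n` vertices, so
`sat(n, K_3, C_4) = 0` for all large `n`.
-/

namespace Pool.Agent.Results.MP_02bc1b_co.TriangleFreeC4Saturated

open SimpleGraph Pool.Agent.V11145.KloostermanTwo Pool.Agent.V11145.TraceGraph
  Pool.Agent.V11145.RandomCore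

/-- `G` is `F`-saturated: it contains no copy of `F`, but adding any edge between two non-adjacent
vertices creates a copy of `F`. -/
def IsSaturated {W V : Type} (F : SimpleGraph W) (G : SimpleGraph V) : Prop :=
  ¬ (F ⊑ G) ∧ ∀ u v : V, u ≠ v → ¬ G.Adj u v → F ⊑ (G ⊔ SimpleGraph.fromEdgeSet {s(u, v)})

/-- The number of copies of `K_3` (triangles) in `G`. -/
noncomputable def triangles {V : Type} (G : SimpleGraph V) : ℕ := (G.cliqueSet 3).ncard

/-- `sat(n, K_3, C_4)`. -/
noncomputable def satK3C4 (n : ℕ) : ℕ :=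
  sInf {t : ℕ | ∃ G : SimpleGraph (Fin n), IsSaturated (cycleGraph 4) G ∧ triangles G = t}

/-- A criterion for the existence of a copy of `C_4`. -/
lemma c4_contained {V : Type} {G : SimpleGraph V} {a b c d : V} (hab : G.Adj a b)
    (hbc : G.Adj b c) (hcd : G.Adj c d) (hda : G.Adj d a) (hac : a ≠ c) (hbd : b ≠ d) :
    (cycleGraph 4) ⊑ G := by
  refine ⟨⟨⟨![a, b, c, d], ?_⟩, ?_⟩⟩
  · intro u v huv
    have h : (cycleGraph (2 + 2)).Adj u v := huv
    rw [cycleGraph_adj] at h
    fin_cases u <;> fin_cases v <;> first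
      | exact hab
      | exact hab.symm
      | exact hbc
      | exact hbc.symm
      | exact hcd
      | exact hcd.symm
      | exact hda
      | exact hda.symm
      | (exfalso; revert h; decide)
  · intro u v huv
    have h1 := hab.ne
    have h2 := hbc.ne
    have h3 := hcd.ne
    have h4 := hda.ne
    fin_cases u <;> fin_cases v <;>
      simp [h1, h2, h3, h4, hac, hbd, h1.symm, h2.symm, h3.symm, h4.symm, hac.symm,
        hbd.symm] at huv ⊢

lemma c4_free {V : Type} {G : SimpleGraph V}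
    (h : ∀ u v x y : V, u ≠ v → G.Adj u x → G.Adj v x → G.Adj u y → G.Adj v y → x = y) :
    ¬ ((cycleGraph 4) ⊑ G) := by
  rintro ⟨f⟩
  have hadj : ∀ i j : Fin (2 + 2), (cycleGraph (2 + 2)).Adj i j → G.Adj (f i) (f j) :=
    fun i j hij => f.toHom.map_adj hij
  have h01 := hadj 0 1 (by rw [cycleGraph_adj]; decide)
  have h21 := hadj 2 1 (by rw [cycleGraph_adj]; decide)
  have h03 := hadj 0 3 (by rw [cycleGraph_adj]; decide)
  have h23 := hadj 2 3 (by rw [cycleGraph_adj]; decide)
  have hne : f (0 : Fin (2 + 2)) ≠ f (2 : Fin (2 + 2)) := by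
    intro he
    have := f.injective he
    exact absurd this (by decide)
  have := f.injective (h _ _ _ _ hne h01 h21 h03 h23)
  exact absurd this (by decide)

/-- A non-trivial sign character exists on every finite field of characteristic two. -/
lemma exists_sign (F : Type) [Field F] [CharP F 2] : ∃ χ : F → ℤ, IsSign χ := by
  let _ : Algebra (ZMod 2) F := ZMod.algebra F 2
  have h1 : ∃ φ : Module.Dual (ZMod 2) F, φ 1 ≠ 0 := by
    by_contra hcon
    push Not at hcon
    have := (Module.forall_dual_apply_eq_zero_iff (ZMod 2) (1 : F)).1 hcon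
    exact one_ne_zero this
  obtain ⟨φ, hφ⟩ := h1
  have two : ∀ z : ZMod 2, z = 0 ∨ z = 1 := by decide
  refine ⟨fun x => if φ x = 0 then 1 else -1, ?_, ?_, ?_⟩
  · intro x y
    rcases two (φ x) with hx | hx <;> rcases two (φ y) with hy | hy
    · simp [map_add, hx, hy]
    · simp [map_add, hx, hy]
    · simp [map_add, hx, hy]
    · have : φ (x + y) = 0 := by rw [map_add, hx, hy]; decide
      simp only [this, if_true, hx, hy, one_ne_zero, if_false]
      norm_num
  · intro x
    by_cases h : φ x = 0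
    · left; simp [h]
    · right; simp [h]
  · exact ⟨1, by simp [hφ]⟩

lemma card_vert {F : Type} [Field F] [Fintype F] [DecidableEq F] {χ : F → ℤ} (h : IsSign χ) :
    2 * Fintype.card (Vert χ) = Fintype.card F * Fintype.card F := by
  classical
  -- the number of `x` with `χ x = -1`
  have h1 : 2 * ((Finset.univ : Finset F).filter (fun x => χ x = -1)).card = Fintype.card F := by
    have hs := h.sum_mul (one_ne_zero)
    have hs2 : ∀ x : F, χ (x * 1) = 1 - 2 * (if χ x = -1 then 1 else 0) := by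
      intro x
      rw [mul_one]
      rcases h.pm x with hx | hx <;> simp [hx]
    simp only [hs2, Finset.sum_sub_distrib, ← Finset.mul_sum, Finset.sum_boole] at hs
    simp only [Finset.sum_const, Finset.card_univ, nsmul_eq_mul, mul_one] at hs
    have : (2 * ((Finset.univ : Finset F).filter (fun x => χ x = -1)).card : ℤ)
        = Fintype.card F := by linarith
    exact_mod_cast this
  have h2 : Fintype.card (Vert χ)
      = ((Finset.univ : Finset F).filter (fun x => χ x = -1)).card * Fintype.card F := by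
    rw [Fintype.card_subtype]
    have : (Finset.univ : Finset (F × F)).filter (fun p => p.1 ≠ 0 ∧ χ (p.1)⁻¹ = -1)
        = ((Finset.univ : Finset F).filter (fun a => a ≠ 0 ∧ χ a⁻¹ = -1)) ×ˢ
          (Finset.univ : Finset F) := by
      ext p
      simp
    rw [this, Finset.card_product, Finset.card_univ]
    congr 1
    apply Finset.card_bij (fun a _ => a⁻¹)
    · intro a ha
      rw [Finset.mem_filter] at ha ⊢
      exact ⟨Finset.mem_univ _, ha.2.2⟩
    · intro a _ b _ hab
      exact inv_injective hab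
    · intro b hb
      rw [Finset.mem_filter] at hb
      refine ⟨b⁻¹, ?_, inv_inv b⟩
      rw [Finset.mem_filter]
      refine ⟨Finset.mem_univ _, ?_, by rw [inv_inv]; exact hb.2⟩
      apply inv_ne_zero
      rintro rfl
      rw [h.zero] at hb
      exact absurd hb.2 (by norm_num)
  rw [h2, ← mul_assoc, h1]

/-- The graph on the vertex set `Vert χ`. -/
def bigGraph {F : Type} [Field F] [CharP F 2] (χ : F → ℤ) : SimpleGraph (Vert χ) where
  Adj := adj χ
  symm := ⟨fun _ _ h => adj_symm χ h⟩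
  loopless := ⟨fun u h => adj_irrefl χ u h⟩

/-- the numerical condition holds for large `L` -/
lemma eventually_small : ∃ L0 : ℕ, ∀ L ≥ L0, (32 * L ^ 2) * (32 * L ^ 2) * 8 * 63 ^ L < 64 ^ L := by
  have h1 := tendsto_pow_const_mul_const_pow_of_abs_lt_one 4
    (show |(63:ℝ) / 64| < 1 by rw [abs_of_pos] <;> norm_num)
  have h2 := h1.eventually (gt_mem_nhds (show (0:ℝ) < 1 / 8192 by norm_num))
  obtain ⟨L0, hL0⟩ := Filter.eventually_atTop.1 h2
  refine ⟨L0, fun L hL => ?_⟩
  have h3 := hL0 L hL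
  have h4 : (8192 * (L:ℝ) ^ 4) * 63 ^ L < 64 ^ L := by
    rw [div_pow] at h3
    have h5 : (0:ℝ) < 64 ^ L := by positivity
    have h6 : (L:ℝ) ^ 4 * 63 ^ L / 64 ^ L < 1 / 8192 := by
      rw [mul_div_assoc]; exact h3
    rw [div_lt_iff₀ h5] at h6
    linarith
  have h7 : (((32 * L ^ 2) * (32 * L ^ 2) * 8 * 63 ^ L : ℕ) : ℝ) < ((64 ^ L : ℕ) : ℝ) := by
    push_cast
    calc (32 * (L:ℝ) ^ 2) * (32 * (L:ℝ) ^ 2) * 8 * 63 ^ L = (8192 * (L:ℝ) ^ 4) * 63 ^ L := by ring
      _ < 64 ^ L := h4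
  exact_mod_cast h7

/-- The main existence statement for one field. -/
lemma exists_graph {F : Type} [Field F] [Fintype F] [DecidableEq F] [CharP F 2] (L : ℕ)
    (hqL : Fintype.card F = 8 * L) (hq : 128 ≤ Fintype.card F)
    (hL : (32 * L ^ 2) * (32 * L ^ 2) * 8 * 63 ^ L < 64 ^ L) (n : ℕ) (hn1 : 4 * L ^ 2 ≤ n)
    (hn2 : n ≤ 32 * L ^ 2) :
    ∃ G : SimpleGraph (Fin n), IsSaturated (cycleGraph 4) G ∧ G.CliqueFree 3 := by
  classical
  obtain ⟨χ, hχ⟩ := exists_sign F
  have hN : Fintype.card (Vert χ) = 32 * L ^ 2 := by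
    have := card_vert hχ
    rw [hqL] at this
    nlinarith
  -- the requirements
  let R : Type := {z : Vert χ × Vert χ // z.1 ≠ z.2 ∧ ¬ adj χ z.1 z.2}
  have hR : Fintype.card R ≤ (32 * L ^ 2) * (32 * L ^ 2) := by
    refine (Fintype.card_subtype_le _).trans ?_
    rw [Fintype.card_prod, hN]
  have hpath : ∀ r : R, ∃ e : Fin L × Fin 2 → Vert χ, Function.Injective e ∧
      ∀ i, adj χ r.1.1 (e (i, 0)) ∧ adj χ (e (i, 0)) (e (i, 1)) ∧ adj χ (e (i, 1)) r.1.2 :=
    fun r => paths hχ hq r.2.1 r.2.2 L (by omega)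
  choose e he1 he2 using hpath
  obtain ⟨W, hW1, hW2⟩ := exists_core e he1 (by
    refine lt_of_le_of_lt ?_ hL
    exact Nat.mul_le_mul_right _ (Nat.mul_le_mul_right _ hR))
  have hWn : W.card ≤ n := by omega
  have hnN : n ≤ (Finset.univ : Finset (Vert χ)).card := by
    rw [Finset.card_univ, hN]; exact hn2
  obtain ⟨U, hWU, _, hUc⟩ := Finset.exists_subsuperset_card_eq (Finset.subset_univ W) hWn hnN
  let en : Fin n ≃ U := (Finset.equivFinOfCardEq hUc).symm
  let G : SimpleGraph (Fin n) := (bigGraph χ).comap (fun i => ((en i : U) : Vert χ))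
  have hinj : Function.Injective (fun i : Fin n => ((en i : U) : Vert χ)) :=
    fun i j hij => en.injective (Subtype.ext hij)
  have hG : ∀ i j, G.Adj i j ↔ adj χ (en i : U).1 (en j : U).1 := fun i j => Iff.rfl
  refine ⟨G, ⟨?_, ?_⟩, ?_⟩
  · apply c4_free
    intro u v x y huv h1 h2 h3 h4
    rw [hG] at h1 h2 h3 h4
    exact hinj (unique_common (fun h => huv (hinj h)) h1 h2 h3 h4)
  · intro u v huv hnadj
    rw [hG] at hnadj
    have hne : ((en u : U) : Vert χ) ≠ ((en v : U) : Vert χ) := fun h => huv (hinj h)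
    let r : R := ⟨((en u : U).1, (en v : U).1), hne, hnadj⟩
    obtain ⟨i, hi1, hi2⟩ := hW2 r
    obtain ⟨p1, p2, p3⟩ := he2 r i
    have hx : ∃ x, ((en x : U) : Vert χ) = e r (i, 0) :=
      ⟨en.symm ⟨e r (i, 0), hWU hi1⟩, by rw [Equiv.apply_symm_apply]⟩
    have hy : ∃ y, ((en y : U) : Vert χ) = e r (i, 1) :=
      ⟨en.symm ⟨e r (i, 1), hWU hi2⟩, by rw [Equiv.apply_symm_apply]⟩
    obtain ⟨x, hx⟩ := hx
    obtain ⟨y, hy⟩ := hy
    rw [← hx] at p1 p2
    rw [← hy] at p2 p3
    have q1 : G.Adj u x := p1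
    have q2 : G.Adj x y := p2
    have q3 : G.Adj y v := p3
    have hvx : x ≠ v := by
      rintro rfl
      exact hnadj p1
    have huy : u ≠ y := by
      rintro rfl
      exact hnadj p3
    refine c4_contained (a := u) (b := x) (c := y) (d := v) (Or.inl q1) (Or.inl q2) (Or.inl q3)
      (Or.inr ?_) huy hvx
    rw [SimpleGraph.fromEdgeSet_adj]
    exact ⟨by rw [Sym2.eq_swap]; rfl, huv.symm⟩
  · intro s hs
    rw [SimpleGraph.is3Clique_iff] at hs
    obtain ⟨a, b, c, hab, hac, hbc, _⟩ := hs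
    exact no_triangle hχ _ _ _ ((hG _ _).1 hab) ((hG _ _).1 hbc) ((hG _ _).1 hac.symm)

/-- For all large `n` there is a triangle-free `C_4`-saturated graph on `n` vertices. -/
lemma main : ∃ n0 : ℕ, ∀ n ≥ n0, ∃ G : SimpleGraph (Fin n),
    IsSaturated (cycleGraph 4) G ∧ G.CliqueFree 3 := by
  obtain ⟨L0, hL0⟩ := eventually_small
  -- L = 2 ^ j with 2 ^ j >= max L0 16
  refine ⟨4 * (2 ^ (L0 + 4)) ^ 2, fun n hn => ?_⟩
  -- choose j
  have hex : ∃ j, L0 + 4 ≤ j ∧ n ≤ 32 * (2 ^ j) ^ 2 := by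
    refine ⟨L0 + 4 + n, by omega, ?_⟩
    have h1 : n < 2 ^ n := Nat.lt_two_pow_self
    have h2 : 2 ^ n ≤ 2 ^ (L0 + 4 + n) := Nat.pow_le_pow_right (by norm_num) (by omega)
    have h3 : 2 ^ (L0 + 4 + n) ≤ (2 ^ (L0 + 4 + n)) ^ 2 := Nat.le_self_pow (by norm_num) _
    omega
  classical
  let j := Nat.find hex
  obtain ⟨hj1, hj2⟩ : L0 + 4 ≤ j ∧ n ≤ 32 * (2 ^ j) ^ 2 := Nat.find_spec hex
  have hj3 : 4 * (2 ^ j) ^ 2 ≤ n := by
    rcases Nat.eq_or_lt_of_le hj1 with h | h
    · rw [← h]; exact hn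
    · by_contra hcon
      push Not at hcon
      have h1 : j - 1 < j := by omega
      have h2 := Nat.find_min hex h1
      apply h2
      refine ⟨by omega, ?_⟩
      have h3 : 2 ^ j = 2 * 2 ^ (j - 1) := by
        rw [← pow_succ']
        congr 1
        omega
      rw [h3] at hcon
      nlinarith
  have hL : L0 ≤ 2 ^ j := by
    have h1 : j < 2 ^ j := Nat.lt_two_pow_self
    omega
  have h16 : 16 ≤ 2 ^ j := by
    calc 16 = 2 ^ 4 := by norm_num
      _ ≤ 2 ^ j := Nat.pow_le_pow_right (by norm_num) (by omega)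
  have : Fact (Nat.Prime 2) := ⟨Nat.prime_two⟩
  let _ : Fintype (GaloisField 2 (j + 3)) := Fintype.ofFinite _
  have hcard : Fintype.card (GaloisField 2 (j + 3)) = 8 * 2 ^ j := by
    rw [← Nat.card_eq_fintype_card, GaloisField.card 2 (j + 3) (by omega), pow_add]
    ring
  exact exists_graph (F := GaloisField 2 (j + 3)) (2 ^ j) hcard (by omega) (hL0 _ hL) n hj3 hj2

/-- The answer to Q1 is negative: there is `n_0` such that for every `n >= n_0` there is a
triangle-free `C_4`-saturated graph on `n` vertices, hence `sat(n, K_3, C_4) = 0`; in particular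
`sat(n, K_3, C_4) > 0` for only finitely many `n`. -/
theorem result :
    (∃ n0 : ℕ, ∀ n ≥ n0, (∃ G : SimpleGraph (Fin n), IsSaturated (cycleGraph 4) G ∧
      G.CliqueFree 3) ∧ satK3C4 n = 0) ∧ ¬ {n : ℕ | 0 < satK3C4 n}.Infinite := by
  obtain ⟨n0, hn0⟩ := main
  have hzero : ∀ n ≥ n0, satK3C4 n = 0 := by
    intro n hn
    obtain ⟨G, hG1, hG2⟩ := hn0 n hn
    apply Nat.eq_zero_of_le_zero
    apply Nat.sInf_le
    refine ⟨G, hG1, ?_⟩
    unfold triangles
    rw [SimpleGraph.cliqueSet_eq_empty_iff.2 hG2]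
    simp
  refine ⟨⟨n0, fun n hn => ⟨hn0 n hn, hzero n hn⟩⟩, ?_⟩
  rw [Set.not_infinite]
  apply (Set.finite_lt_nat n0).subset
  intro n hn
  by_contra hcon
  simp only [Set.mem_ofPred_eq, not_lt] at hn hcon
  rw [hzero n hcon] at hn
  exact lt_irrefl _ hn

end Pool.Agent.Results.MP_02bc1b_co.TriangleFreeC4Saturated
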